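import Pool.Agent.H882.PmLoc

/-!
# MP_130685_nt: no atypical subvarieties for one hundred percent of the pull-backs of the members of
degenerating families under monic polynomials with integral coefficients

**The families.** Let `F ⊂ ℂ` be a countable field, and `X_(δ,t,λ) ⊂ ℂ^n` a family of sets of dimension `m`,
over `F`, with parameters `δ ∈ ℤ^N`, `t ∈ ℕ`, `λ ∈ ℂ^q` (`Family`, `Family.member`), which degenerates for
`t = 0` to the union of the `m`-dimensional coordinate subspaces: for every set `J` of `m + 1` coordinates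
there is an equation

  `lead_J (δ) ∏_(i ∈ J) y_i ^ e_(J,i) + t rest_J (δ, t, λ, y) = 0`

with polynomials over `F`, `lead_J ≠ 0`, and `rest_J` of degree at most `e_(J,i)` in `y_i` (and so independent
of the `y_i`, `i ∉ J`). For example, for an arbitrary subvariety `V ⊂ ℂ^n` of dimension `m` over `F` the
images of `V` under the Möbius transformations `v_i ↦ t λ_i / (v_i - δ_i)` are such a family (if
`P_J (v_j, j ∈ J) = 0` is an equation for `V`, the equation is `∏ y_i ^ e_(J,i) P_J (δ_i + t λ_i / y_i) = 0`,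
with `lead_J = P_J (δ)`), and so are the homothetic images `t λ V` of the varieties `V` in general position
at infinity, and all deformations of unions of coordinate subspaces, like the curves
`y_i y_j = t (a_ij + b_ij y_i + c_ij y_j + d_ij y_i y_j)`.

**The pull-backs.** Let `d_1, …, d_n ≥ 1`. For integers `c = (c_(i,j))`, `1 ≤ i ≤ n`, `0 ≤ j < d_i`, let
`f_i = T ^ (d_i) + ∑_j c_(i,j) T ^ j` (`monic`), and let `f^(-1) X` be the inverse image of
`X ⊂ ℂ^n = Y(1)^n` under the finite map `(f_1, …, f_n)` (`pullback`); `Y(1)^n` is identified with `ℂ^n` by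
`jj = j = E₄³ / Δ`.

**Theorem.** For one hundred percent of the `(c, δ, t) ∈ ℤ^(d_1 + ⋯ + d_n) × ℤ^N × ℕ`, `t > 0` (all but a set of
density zero, ordered by the size), the pull-backs `f^(-1) X_(δ,t,λ)` have no atypical intersection with
special subvarieties (`NoAtypical`), for all algebraic integers `λ_i`.

`NoAtypical F m X` means that for each special subvariety `Z` and each point `x` of `X ∩ Z` the sets of
coordinates of `x` which are algebraically independent over `F` have at most `m + dim Z - n` elements. A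
component of the intersection has a point which is generic over the algebraic closure of `F` (extended by
the `λ_i`, which are algebraic), so that its dimension is at most `m + dim Z - n`. So if `V` is an
irreducible component of dimension `m` of the pull-back (for `d_i = 1`: of the translate of `X_(δ,t,λ)` by an
arbitrary integral point), then `V` has no atypical subvariety at all: it is not contained in a special
subvariety different from `Y(1)^n`, and Q1 is true for `V`.

So the variety `V` degenerates to the union of the coordinate subspaces through the points whose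
coordinates are roots of the polynomials `f_i`, i.e. general algebraic integers of degree `d_i`, all
conjugates being taken together: these points are not near to the boundary of `Y(1)^n`, and the degrees of
the components, of their fields of definition, and of their centres can be arbitrarily large.

**Remarks on the proof.** Let `p` be a prime which divides `t`, such that all `f_i` have `d_i` different roots
modulo `p`. By a `p`-adic embedding each point of `V ∩ Z` is near to a coordinate subspace of dimension `m`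
through a point with coordinates in `ℤ_p`, which depends on the embedding. If the coordinates of the
reductions of all these points are in general position in `Y(1)^n` modulo `p` (ordinary, away from `0` and
`1728`, and no two of them isogenous by an isogeny of degree prime to `p`, which excludes `o (p^n)` classes
`E p`), the `p`-adic uniformisation of the deformation spaces by the Serre-Tate coordinates in the library
(lemma `core_all_w`, lemma `pure_local`) shows that all relations of the coordinates which define `Z` are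
generated by relations of the remaining coordinates, if the coordinates are not canonical lifts of their
reductions. A point can have a coordinate in common with the canonical lifts of at most `n` of the
available primes, as the canonical lifts for two primes are different for most of the `c`. The polynomials
split modulo a positive proportion `∏ 1 / (2 ^ (d_i) d_i !)` of the classes of `c` modulo `p` (lemma
`card_NS`), and as the sum of the inverses of the primes diverges there are enough primes of this kind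
which divide `t`, with probability one (`count_g1`).
-/

set_option autoImplicit false

namespace Pool.Agent.Results.MP_130685_nt.MonicPullbacks

open UpperHalfPlane H294ZP Polynomial

/-- A special subvariety of dimension `r` of `Y(1)^n`: a map `cls` from the coordinates onto `r`
classes (`none` for the constant coordinates), an integral matrix of positive determinant for each
coordinate, and a CM point for each coordinate. -/
structure SpecialVariety (n r : ℕ) where
  cls : Fin n → Option (Fin r)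
  surj : ∀ l : Fin r, ∃ i, cls i = some l
  mat : Fin n → Matrix (Fin 2) (Fin 2) ℤ
  det_pos : ∀ i, 0 < (mat i).det
  cm : Fin n → ℍ
  isCM : ∀ i, IsCM (cm i)

/-- The points of a special subvariety: the constant coordinates are the singular moduli
`j (cm i)`, the other coordinates are `j (g_i z_l)`, where `l` is the class of `i`, `g_i = mat i` and
`z_1, …, z_r` are free parameters in the upper half plane. -/
def SpecialVariety.locus {n r : ℕ} (Z : SpecialVariety n r) : Set (Fin n → ℂ) :=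
  {x | ∃ z : Fin r → ℍ, ∀ i, (Z.cls i = none → x i = jj (Z.cm i)) ∧
    ∀ l, Z.cls i = some l → ∃ w : ℍ,
      (w : ℂ) * (Z.mat i 1 0 * z l + Z.mat i 1 1) = Z.mat i 0 0 * z l + Z.mat i 0 1 ∧ x i = jj w}

/-- For each special subvariety `Z` of dimension `r`, and each point `x` of `X ∩ Z`: families of
coordinates which are algebraically independent over `F` have at most `m + r - n` elements. -/
def NoAtypical {n : ℕ} (F : Subfield ℂ) (m : ℕ) (X : Set (Fin n → ℂ)) : Prop :=
  ∀ (r : ℕ) (Z : SpecialVariety n r), ∀ x ∈ X, x ∈ Z.locus → ∀ W : Finset (Fin n),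
    AlgebraicIndependent F (fun i : W => x i) → n + W.card ≤ m + r

/-- A family of subsets of `ℂ^n` of dimension `m` with parameters `δ ∈ ℤ^N`, `t ∈ ℕ`, `λ ∈ ℂ^q`, which
degenerates to the union of the coordinate subspaces of dimension `m` for `t = 0`:
for each set `J` of `m + 1` coordinates there is an equation
`lead_J (δ) ∏_(i ∈ J) y_i ^ (expo_J i) + t rest_J (δ, t, λ, y) = 0` with polynomials over `F`,
`lead_J ≠ 0`, and `rest_J` of degree at most `expo_J i` in `y_i`. -/
structure Family (F : Subfield ℂ) (n N q m : ℕ) where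
  expo : Finset (Fin n) → Fin n → ℕ
  lead : Finset (Fin n) → MvPolynomial (Fin N) F
  rest : Finset (Fin n) → MvPolynomial ((Fin N ⊕ Fin 1) ⊕ (Fin q ⊕ Fin n)) F
  expo_eq_zero : ∀ J i, i ∉ J → expo J i = 0
  lead_ne_zero : ∀ J, lead J ≠ 0
  degree_le : ∀ J i, (rest J).degreeOf (Sum.inr (Sum.inr i)) ≤ expo J i

/-- The member of the family with the parameters `δ, t, λ`. -/
def Family.member {F : Subfield ℂ} {n N q m : ℕ} (X : Family F n N q m) (δ : Fin N → ℤ)
    (t : ℕ) (lam : Fin q → ℂ) : Set (Fin n → ℂ) :=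
  {y | ∀ J : Finset (Fin n), J.card = m + 1 →
    MvPolynomial.aeval (fun i => (δ i : ℂ)) (X.lead J) * ∏ i, y i ^ X.expo J i +
      (t : ℂ) * MvPolynomial.aeval (Sum.elim (Sum.elim (fun i => (δ i : ℂ))
        (fun _ => (t : ℂ))) (Sum.elim lam y)) (X.rest J) = 0}

/-- The monic polynomial `f_i = x ^ (d_i) + ∑_(j < d_i) c_(i,j) x ^ j`. -/
noncomputable def monic {n : ℕ} {d : Fin n → ℕ} (c : (Σ i, Fin (d i)) → ℤ) (i : Fin n) : ℤ[X] :=
  X ^ d i + ∑ j : Fin (d i), Polynomial.C (c ⟨i, j⟩) * X ^ (j : ℕ)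

/-- The inverse image of `X` under the map `(f_1, …, f_n)`. -/
def pullback {n : ℕ} {d : Fin n → ℕ} (c : (Σ i, Fin (d i)) → ℤ) (X : Set (Fin n → ℂ)) :
    Set (Fin n → ℂ) :=
  {x | (fun i => aeval (x i) (monic c i)) ∈ X}

/-- `E` has density zero: it has `o (H ^ (d_1 + ⋯ + d_n + N + 1))` elements with `|c_(i,j)| ≤ H`,
`|δ_i| ≤ H`, `t ≤ H`. -/
def DensityZero {n N : ℕ} {d : Fin n → ℕ}
    (E : Set (((Σ i, Fin (d i)) → ℤ) × (Fin N → ℤ) × ℕ)) : Prop :=
  ∀ ε : ℝ, 0 < ε → ∃ H₀ : ℕ, ∀ H : ℕ, H₀ ≤ H →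
    ({p : ((Σ i, Fin (d i)) → ℤ) × (Fin N → ℤ) × ℕ | p ∈ E ∧ (∀ x, |p.1 x| ≤ (H : ℤ)) ∧
      (∀ i, |p.2.1 i| ≤ (H : ℤ)) ∧ p.2.2 ≤ H}.ncard : ℝ) ≤ ε * (H : ℝ) ^ ((∑ i, d i) + N + 1)

open Pool.Agent.H882 Pool.Agent.Y226

/-- The theorem. -/
theorem result (n N q : ℕ) (d : Fin n → ℕ) (hd : ∀ i, 0 < d i) (F : Subfield ℂ) [Countable F]
    (m : ℕ) (X : Family F n N q m) :
    DensityZero {p : ((Σ i, Fin (d i)) → ℤ) × (Fin N → ℤ) × ℕ | 0 < p.2.2 ∧
      ¬ ∀ lam : Fin q → ℂ, (∀ i, IsIntegral ℤ (lam i)) →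
        NoAtypical F m (pullback p.1 (X.member p.2.1 p.2.2 lam))} := by
  classical
  obtain ⟨E, Γ, hE, hΓ, hΓ2, hcore⟩ := core_all_w n
  -- the indices
  obtain ⟨N', hN'⟩ : ∃ N' : ℕ, N' = Fintype.card ((Σ i, Fin (d i)) ⊕ Fin N) := ⟨_, rfl⟩
  have hN'2 : N' = (∑ i, d i) + N := by
    rw [hN', Fintype.card_sum, Fintype.card_sigma, Fintype.card_fin]
    simp
  have hcα : Fintype.card (Σ i, Fin (d i)) = ∑ i, d i := by
    rw [Fintype.card_sigma]
    simp
  obtain ⟨e⟩ : Nonempty (((Σ i, Fin (d i)) ⊕ Fin N) ≃ Fin N') :=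
    ⟨Fintype.equivFinOfCardEq hN'.symm⟩
  let σ : (Σ i, Fin (d i)) → Fin N' := fun x => e (Sum.inl x)
  let τ : Fin N → Fin N' := fun j => e (Sum.inr j)
  have hσ : Function.Injective σ := fun x y h => Sum.inl_injective (e.injective h)
  have hτ : Function.Injective τ := fun x y h => Sum.inr_injective (e.injective h)
  let comb : ((Σ i, Fin (d i)) → ℤ) → (Fin N → ℤ) → Fin N' → ℤ := fun c δ j =>
    Sum.elim c δ (e.symm j)
  have hcσ : ∀ c δ x, comb c δ (σ x) = c x := by
    intro c δ x
    show Sum.elim c δ (e.symm (e (Sum.inl x))) = _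
    rw [Equiv.symm_apply_apply, Sum.elim_inl]
  have hcτ : ∀ c δ j, comb c δ (τ j) = δ j := by
    intro c δ j
    show Sum.elim c δ (e.symm (e (Sum.inr j))) = _
    rw [Equiv.symm_apply_apply, Sum.elim_inr]
  have hnd : n ≤ ∑ i, d i := by
    calc n = ∑ _i : Fin n, 1 := by simp
      _ ≤ _ := Finset.sum_le_sum fun i _ => hd i
  have hinjF : Function.Injective (algebraMap F ℂ) := (algebraMap F ℂ).injective
  -- the unit conditions
  let Ql : Finset (Fin n) → MvPolynomial (Fin N') ℂ := fun J =>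
    MvPolynomial.map (algebraMap F ℂ) (MvPolynomial.rename τ (X.lead J))
  let Q : Finset (MvPolynomial (Fin N') ℂ) := Finset.univ.image Ql
  have hQ0 : ∀ q ∈ Q, q ≠ 0 := by
    intro q hq
    obtain ⟨J, -, rfl⟩ := Finset.mem_image.1 hq
    intro h
    have h1 : MvPolynomial.rename τ (X.lead J) = 0 :=
      MvPolynomial.map_injective _ hinjF (by rw [map_zero]; exact h)
    exact X.lead_ne_zero J (MvPolynomial.rename_injective _ hτ (by rw [h1, map_zero]))
  have hQF : ∀ q ∈ Q, ∀ v, q.coeff v ∈ F := by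
    intro q hq v
    obtain ⟨J, -, rfl⟩ := Finset.mem_image.1 hq
    show (MvPolynomial.map (algebraMap F ℂ) (MvPolynomial.rename τ (X.lead J))).coeff v ∈ F
    rw [MvPolynomial.coeff_map]
    exact Subtype.property _
  -- the coefficients
  let S : Finset ℂ := Finset.univ.biUnion fun J : Finset (Fin n) =>
      (X.rest J).support.image fun v => (((X.rest J).coeff v : F) : ℂ)
  have hne : ∀ c : F, c ≠ 0 → (c : ℂ) ≠ 0 := fun c hc h => hc (Subtype.ext h)
  have hS0 : ∀ b ∈ S, b ≠ 0 := by
    intro b hb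
    obtain ⟨J, -, hJ⟩ := Finset.mem_biUnion.1 hb
    obtain ⟨v, hv, rfl⟩ := Finset.mem_image.1 hJ
    exact hne _ (MvPolynomial.mem_support_iff.1 hv)
  have hSF : ∀ b ∈ S, b ∈ F := by
    intro b hb
    obtain ⟨J, -, hJ⟩ := Finset.mem_biUnion.1 hb
    obtain ⟨v, hv, rfl⟩ := Finset.mem_image.1 hJ
    exact Subtype.property _
  obtain ⟨B, K, hloc⟩ := fm_prime (n := n) (F := F) Cardinal.mk_le_aleph0 Q hQ0 hQF S hS0 hSF
  obtain ⟨D, hD⟩ : ∃ D : ℕ, ∀ i, d i ≤ D :=
    ⟨∑ i, d i, fun i => Finset.single_le_sum (f := d) (fun _ _ => Nat.zero_le _)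
      (Finset.mem_univ i)⟩
  obtain ⟨B₁, hB₁⟩ : ∃ B₁ : ℕ, B₁ = B + 3 + 2 * D := ⟨_, rfl⟩
  have hex : ∀ p : ℕ, ∃ Bd : Set (Fin N' → ZMod p), p.Prime → B₁ < p →
      Bd.ncard ≤ K * p ^ (N' - 1) ∧ (N' = 0 → Bd = ∅) ∧
        LocF n N' p (E p) (Γ p) F Q S Bd := by
    intro p
    by_cases h : p.Prime ∧ B₁ < p
    · obtain ⟨Bd, hBd⟩ := hloc p h.1 (by omega) (E p) (Γ p) (hcore p h.1 (by omega))
      exact ⟨Bd, fun _ _ => hBd⟩
    · exact ⟨∅, fun h1 h2 => absurd ⟨h1, h2⟩ h⟩
  choose Bd hBd using hex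
  let EE : ∀ p : ℕ, Set (Fin N' → ZMod p) := fun p =>
    {v | v ∈ Bd p ∨ (¬ ∀ i, Spl fun j : Fin (d i) => v (σ ⟨i, j⟩)) ∨
      ∃ a ∈ E p, ∀ i, (mp fun j : Fin (d i) => v (σ ⟨i, j⟩)).eval (a i) = 0}
  let Bp : ∀ p q : ℕ, Set ((Fin N' → ZMod p) × (Fin N' → ZMod q)) := fun p q =>
    {uv | ∃ i a b z, (mp fun j : Fin (d i) => uv.1 (σ ⟨i, j⟩)).eval a = 0 ∧
      (mp fun j : Fin (d i) => uv.2 (σ ⟨i, j⟩)).eval b = 0 ∧ z ∈ Γ p a ∧ z ∈ Γ q b}
  -- the number of the exceptional classes
  have hκ0 := kap_pos d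
  have hκ1 := kap_le d
  obtain ⟨B₂, hB₂⟩ : ∃ B₂ : ℕ, ∀ p, p.Prime → B₂ < p →
      ((EE p).ncard : ℝ) ≤ (1 - kap d / 2) * (p : ℝ) ^ N' := by
    obtain ⟨B₃, hB₃⟩ := small_E E hE (kap d / 4) (by positivity)
    obtain ⟨B₄, hB₄⟩ := exists_nat_ge ((K : ℝ) / (kap d / 4))
    refine ⟨B₁ + B₃ + B₄, fun p hp hlt => ?_⟩
    have : NeZero p := ⟨hp.ne_zero⟩
    have hp0 : (0 : ℝ) < p := by exact_mod_cast hp.pos
    have h1 : (EE p).ncard ≤ (Bd p).ncard +
        ({v : Fin N' → ZMod p | ¬ ∀ i, Spl fun j : Fin (d i) => v (σ ⟨i, j⟩)}.ncard +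
        {v : Fin N' → ZMod p | ∃ a ∈ E p, ∀ i,
          (mp fun j : Fin (d i) => v (σ ⟨i, j⟩)).eval (a i) = 0}.ncard) := by
      refine le_trans (Set.ncard_le_ncard (t := Bd p ∪
        ({v : Fin N' → ZMod p | ¬ ∀ i, Spl fun j : Fin (d i) => v (σ ⟨i, j⟩)} ∪
        {v : Fin N' → ZMod p | ∃ a ∈ E p, ∀ i,
          (mp fun j : Fin (d i) => v (σ ⟨i, j⟩)).eval (a i) = 0})) (fun v hv => hv)
          (Set.toFinite _)) ?_
      exact (Set.ncard_union_le _ _).trans (Nat.add_le_add le_rfl (Set.ncard_union_le _ _))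
    have h2 : ((Bd p).ncard : ℝ) ≤ kap d / 4 * (p : ℝ) ^ N' := by
      obtain ⟨h3, h4, -⟩ := hBd p hp (by omega)
      rcases Nat.eq_zero_or_pos N' with hN0 | hN0
      · rw [h4 hN0, Set.ncard_empty, Nat.cast_zero]
        positivity
      · have h5 : ((Bd p).ncard : ℝ) ≤ K * (p : ℝ) ^ (N' - 1) := by exact_mod_cast h3
        have e1 : (p : ℝ) ^ N' = p * (p : ℝ) ^ (N' - 1) := by
          rw [← pow_succ']
          congr 1
          omega
        refine h5.trans ?_
        rw [e1, ← mul_assoc]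
        refine mul_le_mul_of_nonneg_right ?_ (by positivity)
        rw [div_le_iff₀ (by positivity)] at hB₄
        have h6 : (B₄ : ℝ) ≤ p := by
          have : B₄ ≤ p := by omega
          exact_mod_cast this
        nlinarith
    have e2 : (p : ℝ) ^ N' = (p : ℝ) ^ (∑ i, d i) * (p : ℝ) ^ N := by
      rw [hN'2, pow_add]
    have e3 : Fintype.card (Fin N') - Fintype.card (Σ i, Fin (d i)) = N := by
      rw [Fintype.card_fin, hcα, hN'2]
      omega
    have h3 : (({v : Fin N' → ZMod p | ¬ ∀ i, Spl fun j : Fin (d i) =>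
        v (σ ⟨i, j⟩)}.ncard : ℕ) : ℝ) ≤ (1 - kap d) * (p : ℝ) ^ N' := by
      have h4 := card_pull' (p := p) σ hσ
        {v : (Σ i, Fin (d i)) → ZMod p | ¬ ∀ i, Spl fun j => v ⟨i, j⟩}
      rw [e3] at h4
      have h5 := card_NS (p := p) d hp (fun i => by have := hD i; omega)
      rw [hcα] at h5
      have h6 : (({v : Fin N' → ZMod p | ¬ ∀ i, Spl fun j : Fin (d i) =>
          v (σ ⟨i, j⟩)}.ncard : ℕ) : ℝ) ≤
          (({v : (Σ i, Fin (d i)) → ZMod p | ¬ ∀ i, Spl fun j => v ⟨i, j⟩}.ncard : ℕ) : ℝ) *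
            (p : ℝ) ^ N := by exact_mod_cast h4
      refine h6.trans ?_
      rw [e2, ← mul_assoc]
      exact mul_le_mul_of_nonneg_right h5 (by positivity)
    have h4 : (({v : Fin N' → ZMod p | ∃ a ∈ E p, ∀ i,
        (mp fun j : Fin (d i) => v (σ ⟨i, j⟩)).eval (a i) = 0}.ncard : ℕ) : ℝ) ≤
        kap d / 4 * (p : ℝ) ^ N' := by
      have h5 := card_pull' (p := p) σ hσ {v : (Σ i, Fin (d i)) → ZMod p |
        ∃ a ∈ E p, ∀ i, (mp fun j => v ⟨i, j⟩).eval (a i) = 0}
      rw [e3] at h5
      have h6 := card_RT (p := p) d hd (E p)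
      rw [hcα] at h6
      have h7 := h5.trans (Nat.mul_le_mul_right _ h6)
      have h8 : (({v : Fin N' → ZMod p | ∃ a ∈ E p, ∀ i,
          (mp fun j : Fin (d i) => v (σ ⟨i, j⟩)).eval (a i) = 0}.ncard : ℕ) : ℝ) ≤
          ((E p).ncard : ℝ) * (p : ℝ) ^ ((∑ i, d i) - n) * (p : ℝ) ^ N := by exact_mod_cast h7
      refine h8.trans ?_
      have h9 := hB₃ p hp (by omega)
      have e4 : (p : ℝ) ^ (∑ i, d i) = (p : ℝ) ^ n * (p : ℝ) ^ ((∑ i, d i) - n) := by
        rw [← pow_add]
        congr 1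
        omega
      rw [e2, e4]
      calc ((E p).ncard : ℝ) * (p : ℝ) ^ ((∑ i, d i) - n) * (p : ℝ) ^ N ≤
          (kap d / 4 * (p : ℝ) ^ n) * (p : ℝ) ^ ((∑ i, d i) - n) * (p : ℝ) ^ N := by
            refine mul_le_mul_of_nonneg_right (mul_le_mul_of_nonneg_right h9 ?_) ?_
            · positivity
            · positivity
        _ = _ := by ring
    have h5 : ((EE p).ncard : ℝ) ≤ (Bd p).ncard +
        ((({v : Fin N' → ZMod p | ¬ ∀ i, Spl fun j : Fin (d i) =>
          v (σ ⟨i, j⟩)}.ncard : ℕ) : ℝ) +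
        (({v : Fin N' → ZMod p | ∃ a ∈ E p, ∀ i,
          (mp fun j : Fin (d i) => v (σ ⟨i, j⟩)).eval (a i) = 0}.ncard : ℕ) : ℝ)) := by
      exact_mod_cast h1
    have h6 : (1 - kap d / 2) * (p : ℝ) ^ N' = kap d / 4 * (p : ℝ) ^ N' +
        ((1 - kap d) * (p : ℝ) ^ N' + kap d / 4 * (p : ℝ) ^ N') := by ring
    rw [h6]
    exact h5.trans (add_le_add h2 (add_le_add h3 h4))
  have hBp : ∀ p ∈ {p : ℕ | p.Prime}, ∀ q ∈ {p : ℕ | p.Prime}, B₁ + B₂ < p → B₁ + B₂ < q → p ≠ q →
      ((Bp p q).ncard : ℝ) ≤ (n * D : ℝ) * (p : ℝ) ^ N' * (q : ℝ) ^ N' / q := by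
    intro p hp q hq h1 h2 _
    have hp' : p.Prime := hp
    have hq' : q.Prime := hq
    have h3 := pair_mp (N := N') hp' hq' d hd hD σ hσ (Γ p) (Γ q) (fun a => (hΓ p a).1) (hΓ2 q)
    have h4 : ((Bp p q).ncard : ℝ) ≤
        n * ((p : ℝ) ^ N' * (D * (q : ℝ) ^ (N' - 1))) := by exact_mod_cast h3
    refine h4.trans ?_
    have hq0 : (0 : ℝ) < q := by exact_mod_cast hq'.pos
    rcases Nat.eq_zero_or_pos n with hn | hn
    · have h5 : (n : ℝ) = 0 := by exact_mod_cast hn
      rw [h5]
      simp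
    · have e1 : (q : ℝ) ^ N' = q * (q : ℝ) ^ (N' - 1) := by
        rw [← pow_succ']
        congr 1
        omega
      rw [e1]
      refine le_of_eq ?_
      field_simp
  obtain ⟨B₃, hB₃⟩ : ∃ B₃ : ℕ, B₃ = B₁ + (∑ J, ∑ i, X.expo J i) + 1 := ⟨_, rfl⟩
  -- the main statement
  have hmain : ∀ (c : (Σ i, Fin (d i)) → ℤ) (δ : Fin N → ℤ) (t : ℕ), 0 < t →
      G1 {p : ℕ | p.Prime} EE Bp (n + 1) B₃ (comb c δ) t →
      ∀ lam : Fin q → ℂ, (∀ i, IsIntegral ℤ (lam i)) →
        NoAtypical F m (pullback c (X.member δ t lam)) := by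
    intro c δ t ht hG lam hlam r Z x hx hxZ W hind
    obtain ⟨f, hf, hf1, hf2⟩ := hG
    have hredσ : ∀ (p : ℕ) (y : Σ i, Fin (d i)), red p (comb c δ) (σ y) = (c y : ZMod p) := by
      intro p y
      show ((comb c δ (σ y) : ℤ) : ZMod p) = _
      rw [hcσ]
    -- a prime for which no coordinate is exceptional
    obtain ⟨i₀, hi₀⟩ : ∃ i₀, ∀ (i : Fin n) (a : ZMod (f i₀)),
        (mp fun j : Fin (d i) => red (f i₀) (comb c δ) (σ ⟨i, j⟩)).eval a = 0 →
          x i ∉ Γ (f i₀) a := by
      by_contra hno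
      push Not at hno
      choose g a hga hg using hno
      obtain ⟨i, i', hii, hgi⟩ := Fintype.exists_ne_map_eq_of_card_lt g (by simp)
      have h2 := hga i'
      have h3 := hg i'
      rw [← hgi] at h2 h3
      exact hf2 i i' hii ⟨g i, a i, a i', x (g i), hga i, h2, hg i, h3⟩
    obtain ⟨p1, p3, p4, p6⟩ := hf1 i₀
    obtain ⟨p, hp⟩ : ∃ p, p = f i₀ := ⟨_, rfl⟩
    rw [← hp] at p1 p3 p4 p6 hi₀
    have p1' : p.Prime := p1
    have : Fact p.Prime := ⟨p1'⟩
    have p6' : ¬ (red p (comb c δ) ∈ Bd p ∨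
        (¬ ∀ i, Spl fun j : Fin (d i) => red p (comb c δ) (σ ⟨i, j⟩)) ∨
        ∃ a ∈ E p, ∀ i, (mp fun j : Fin (d i) => red p (comb c δ) (σ ⟨i, j⟩)).eval (a i) = 0) :=
      p6
    rw [not_or, not_or, not_not] at p6'
    obtain ⟨p7, p8, p9⟩ := p6'
    push Not at p9
    have hpB : B₁ < p := by omega
    have hp3 : 3 < p := by omega
    choose A hAc hA using p8
    have hroot : ∀ i, ∀ a ∈ A i,
        (mp fun j : Fin (d i) => red p (comb c δ) (σ ⟨i, j⟩)).eval a = 0 := by
      intro i a ha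
      rw [hA i, Polynomial.eval_prod]
      refine Finset.prod_eq_zero ha ?_
      simp
    obtain ⟨C', i1, i2, i3, i4, i5, φ₀, hpC, hCC, hL⟩ := (hBd p p1' hpB).2.2
    have hp1 : ‖(p : C')‖ < 1 := by
      rw [hpC]
      exact inv_lt_one_of_one_lt₀ (by exact_mod_cast p1'.one_lt)
    have hp0 : 0 < ‖(p : C')‖ := by
      rw [hpC]
      exact inv_pos.2 (by exact_mod_cast p1'.pos)
    refine pure_local p1' φ₀ hpC hCC (F := F) (m := m) x (fun {ι} _ y' hy' a => ?_)
      ⟨Z.cls, Z.surj, Z.mat, Z.det_pos, Z.cm, Z.isCM⟩ hxZ W hind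
    obtain ⟨Φ, g1, g2, g3, g4⟩ := hL (comb c δ) p7 y' hy' a
    refine ⟨Φ, g1, g2, ?_⟩
    let y : Fin n → ℂ := fun i => aeval (x i) (monic c i)
    have hy : y ∈ X.member δ t lam := hx
    -- the centre
    have hcen : ∀ i, ∃ b ∈ A i, ‖Φ (y i)‖ ^ (p - 1) < ‖(p : C')‖ →
        ‖Φ (x i) - ((b.val : ℤ) : C')‖ ^ (p - 1) < ‖(p : C')‖ := by
      intro i
      by_cases hsm : ‖Φ (y i)‖ ^ (p - 1) < ‖(p : C')‖
      · have hA' : mp (fun j : Fin (d i) => (c ⟨i, j⟩ : ZMod p)) =
            ∏ b ∈ A i, (Polynomial.X - Polynomial.C b) := by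
          rw [← hA i]
          congr 1
          funext j
          exact (hredσ p ⟨i, j⟩).symm
        obtain ⟨b, hb, hb'⟩ := near_root (C := C') p1' hp3 hp1 hp0 (hd i) (fun j => c ⟨i, j⟩)
          (A i) hA' (Φ (x i)) (by
            have e1 : ((mp fun j => c ⟨i, j⟩).map (Int.castRingHom C')).eval (Φ (x i)) =
                Φ (y i) := by
              show _ = Φ (aeval (x i) (monic c i))
              rw [← Polynomial.eval_map_algebraMap, map_eval', Polynomial.map_map]
              congr 2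
              exact RingHom.ext_int _ _
            rw [e1]
            exact hsm)
        exact ⟨b, hb, fun _ => hb'⟩
      · obtain ⟨b, hb⟩ := Finset.card_pos.1 (by rw [hAc i]; exact hd i)
        exact ⟨b, hb, fun h => absurd h hsm⟩
    choose b hb1 hb2 using hcen
    have hbc : ∀ i, (((b i).val : ℤ) : ZMod p) = b i := by
      intro i
      push_cast
      rw [ZMod.natCast_zmod_val]
    refine ⟨Finset.univ.filter fun i => ¬ ‖Φ (y i)‖ ^ (p - 1) < ‖(p : C')‖,
      fun i => ((b i).val : ℤ), ?_, ?_, fun i => ?_, fun i hi => ?_⟩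
    · by_contra hcard
      rw [not_le] at hcard
      obtain ⟨J, hJ1, hJ2⟩ := Finset.exists_subset_card_eq (Nat.succ_le_of_lt hcard)
      have hmem := hy J hJ2
      have key : ∃ i ∈ J, ‖Φ (y i)‖ ^ (p - 1) < ‖(p : C')‖ := by
        refine one_J (p := p) (M := 1) hp1 hp0 Φ J (X.expo J) (X.expo_eq_zero J)
          (MvPolynomial.aeval (fun i => (δ i : ℂ)) (X.lead J)) ?_
          (MvPolynomial.map (algebraMap F ℂ) (X.rest J)) ?_ ?_ δ (fun _ => t) lam
          (fun i => norm_le_one_of_isIntegral Φ (hlam i)) y (t : ℂ) ?_ ?_ ?_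
        · have h1 := g4 (Ql J) (Finset.mem_image_of_mem _ (Finset.mem_univ J))
          have e1 : MvPolynomial.eval (fun i => ((comb c δ i : ℤ) : ℂ)) (Ql J) =
              MvPolynomial.aeval (fun i => (δ i : ℂ)) (X.lead J) := by
            show MvPolynomial.eval _ (MvPolynomial.map _ (MvPolynomial.rename _ _)) = _
            rw [MvPolynomial.eval_map, ← MvPolynomial.aeval_def, MvPolynomial.aeval_rename]
            have e0 : (fun i => ((comb c δ i : ℤ) : ℂ)) ∘ τ = fun i => (δ i : ℂ) := by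
              funext i
              show ((comb c δ (τ i) : ℤ) : ℂ) = _
              rw [hcτ]
            rw [e0]
          rw [e1] at h1
          exact h1
        · intro v hv
          rw [MvPolynomial.coeff_map]
          refine (g3 _ (Finset.mem_biUnion.2 ⟨J, Finset.mem_univ J,
            Finset.mem_image.2 ⟨v, ?_, rfl⟩⟩)).le
          exact MvPolynomial.support_map_subset _ _ hv
        · intro i
          rw [MvPolynomial.degreeOf_le_iff]
          intro v hv
          exact (MvPolynomial.monomial_le_degreeOf _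
            (MvPolynomial.support_map_subset _ _ hv)).trans (X.degree_le J i)
        · obtain ⟨c', hc'⟩ := p4
          rw [hc', map_natCast]
          push_cast
          rw [norm_mul]
          refine mul_le_of_le_one_right (norm_nonneg _) ?_
          simpa using IsUltrametricDist.norm_intCast_le_one C' (c' : ℤ)
        · rw [MvPolynomial.eval_map, ← MvPolynomial.aeval_def]
          exact hmem
        · have h1 : ∑ i, X.expo J i ≤ ∑ J, ∑ i, X.expo J i :=
            Finset.single_le_sum (f := fun J => ∑ i, X.expo J i) (fun _ _ => Nat.zero_le _)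
              (Finset.mem_univ J)
          omega
      obtain ⟨i, hi, hi'⟩ := key
      exact (Finset.mem_filter.1 (hJ1 hi)).2 hi'
    · intro hE'
      obtain ⟨i, hi⟩ := p9 (fun i => b i) (by
        have e1 : (fun i => (((b i).val : ℤ) : ZMod p)) = fun i => b i := funext hbc
        rw [e1] at hE'
        exact hE')
      exact hi (hroot i (b i) (hb1 i))
    · rw [hbc]
      exact hi₀ i (b i) (hroot i (b i) (hb1 i))
    · refine hb2 i ?_
      by_contra h1
      exact hi (Finset.mem_filter.2 ⟨Finset.mem_univ _, h1⟩)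
  -- the density
  intro ε hε
  obtain ⟨H₀, hH₀⟩ := count_g1 (P := {p : ℕ | p.Prime}) (fun p hp => hp) dvg_primes EE Bp
    (κ := 1 - kap d / 2) (C := (n * D : ℝ)) (by linarith) (by linarith) (by positivity) (B₁ + B₂)
    (fun p hp hlt => hB₂ p hp (by omega)) hBp (n + 1) B₃ hε
  refine ⟨H₀, fun H hH => le_trans ?_ ((hH₀ H hH).trans (le_of_eq (by rw [hN'2])))⟩
  have hfin : {x : (Fin N' → ℤ) × ℕ | (∀ i, |x.1 i| ≤ (H : ℤ)) ∧
      x.2 + 1 ≤ H ∧ ¬ G1 {p : ℕ | p.Prime} EE Bp (n + 1) B₃ x.1 (x.2 + 1)}.Finite := by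
    refine (Finset.finite_toSet (bx N' H ×ˢ Finset.range H)).subset ?_
    rintro x ⟨h1, h2, -⟩
    exact Finset.mem_coe.2 (Finset.mem_product.2 ⟨mem_bx.2 h1, Finset.mem_range.2 h2⟩)
  refine Nat.cast_le.2 (Set.ncard_le_ncard_of_injOn
    (fun x => (comb x.1 x.2.1, x.2.2 - 1)) ?_ ?_ hfin)
  · rintro ⟨c, δ, t⟩ ⟨⟨h1, h2⟩, h3, h4, h5⟩
    have h1' : 0 < t := h1
    have e1 : t - 1 + 1 = t := Nat.sub_add_cancel h1'
    refine ⟨fun i => ?_, ?_, fun hG => h2 ?_⟩
    · show |Sum.elim c δ (e.symm i)| ≤ (H : ℤ)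
      rcases e.symm i with x | j
      · exact h3 x
      · exact h4 j
    · show t - 1 + 1 ≤ H
      rw [e1]
      exact h5
    · have h6 : G1 {p : ℕ | p.Prime} EE Bp (n + 1) B₃ (comb c δ) (t - 1 + 1) := hG
      rw [e1] at h6
      exact hmain c δ t h1' h6
  · rintro ⟨c, δ, t⟩ ⟨⟨h1, -⟩, -⟩ ⟨c', δ', t'⟩ ⟨⟨h1', -⟩, -⟩ hab
    rw [Prod.mk.injEq] at hab
    obtain ⟨ha, hb⟩ := hab
    have ha' : comb c δ = comb c' δ' := ha
    have e1 : c = c' := by
      funext x
      rw [← hcσ c δ x, ← hcσ c' δ' x, ha']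
    have e2 : δ = δ' := by
      funext j
      rw [← hcτ c δ j, ← hcτ c' δ' j, ha']
    have e3 : t = t' := by
      have h2 : t - 1 = t' - 1 := hb
      have h3 : 0 < t := h1
      have h4 : 0 < t' := h1'
      omega
    rw [e1, e2, e3]

end Pool.Agent.Results.MP_130685_nt.MonicPullbacks
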